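import Pool.Agent.Helper19.PS.Defs
import Pool.Agent.Helper20.VF.Asym
import Pool.Agent.Helper19.PS.RegII

/-!
# PS-23: the constants
-/

set_option autoImplicit false

open MeasureTheory Set Metric Filter Module Matrix
open scoped NNReal Topology RealInnerProductSpace ENNReal Real

namespace Pool.Agent.Helper19.PS

open Pool.Agent.Helper20.VF

/-- `Γ(2m + 1/2)` and the constant `cst m`. -/
lemma ps23_cst_Gamma {m : ℕ} (hm : 1 ≤ m) :
    cst m * (√π * Real.Gamma (2 * m + 1 / 2)) = π * ((2 * m) * Real.Gamma (2 * m)) := by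
  have hm0 : (1 : ℝ) ≤ m := by exact_mod_cast hm
  have h := bm_mul_cst hm
  have hΓ1 : 0 < Real.Gamma (2 * m) := Real.Gamma_pos_of_pos (by positivity)
  have hs : 0 < √((4 * (m : ℝ) + 1) / (4 * m)) := Real.sqrt_pos.2 (by positivity)
  rw [bm] at h
  have h2 : (√π * Real.Gamma (2 * m + 1 / 2) / Real.Gamma (2 * m) * cst m) *
      √((4 * (m : ℝ) + 1) / (4 * m)) = (π * (2 * m)) * √((4 * (m : ℝ) + 1) / (4 * m)) := by
    rw [← h]
    ring
  have h3 := mul_right_cancel₀ hs.ne' h2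
  have h4 : √π * Real.Gamma (2 * m + 1 / 2) / Real.Gamma (2 * m) * cst m * Real.Gamma (2 * m) =
      π * (2 * m) * Real.Gamma (2 * m) := by rw [h3]
  have h5 : √π * Real.Gamma (2 * m + 1 / 2) / Real.Gamma (2 * m) * cst m * Real.Gamma (2 * m) =
      cst m * (√π * Real.Gamma (2 * m + 1 / 2)) := by
    field_simp
  rw [← h5, h4]
  ring

/-- The quotient of the Gaussian moments. -/
lemma ps23_gm {m : ℕ} (hm : 1 ≤ m) :
    cst m * (√(2 * π) * gm (4 * m)) = π * gm (4 * m + 1) := by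
  have hm0 : (1 : ℝ) ≤ m := by exact_mod_cast hm
  have h := ps23_cst_Gamma hm
  have e1 : (((4 * m : ℕ) : ℝ) + 1) / 2 = 2 * m + 1 / 2 := by push_cast; ring
  have e2 : (((4 * m + 1 : ℕ) : ℝ) + 1) / 2 = 2 * m + 1 := by push_cast; ring
  have e3 : (2 : ℝ) ^ (2 * (m : ℝ) + 1 / 2) = 2 ^ (2 * (m : ℝ)) * √2 := by
    rw [Real.rpow_add (by norm_num), Real.sqrt_eq_rpow]
  have e4 : (2 : ℝ) ^ (2 * (m : ℝ) + 1) = 2 ^ (2 * (m : ℝ)) * 2 := by
    rw [Real.rpow_add (by norm_num), Real.rpow_one]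
  have hs22 : √2 * √2 = (2 : ℝ) := Real.mul_self_sqrt (by norm_num)
  rw [gm_eq, gm_eq, e1, e2, e3, e4, Real.Gamma_add_one (by positivity),
    Real.sqrt_mul (by norm_num) π]
  calc cst m * (√2 * √π * (2 ^ (2 * (m : ℝ)) * √2 / 2 * Real.Gamma (2 * m + 1 / 2)))
      = (√2 * √2) * 2 ^ (2 * (m : ℝ)) / 2 * (cst m * (√π * Real.Gamma (2 * m + 1 / 2))) := by
        ring
    _ = _ := by
        rw [hs22, h]
        ring

theorem kap_eq_KS (m : ℕ) (hm : 1 ≤ m) :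
    2 * kap (2 * m - 1) = cst m * (2 ^ (2 * m - 1 + 1) * KS (2 * m - 1)) := by
  obtain ⟨n, hn⟩ : ∃ n, n = 2 * m - 1 := ⟨_, rfl⟩
  rw [← hn]
  have h := ps23_gm hm
  have i1 : 4 * m = 2 * n + 2 := by omega
  rw [i1] at h
  have g1 := gm_pos (2 * n + 1)
  have g2 := gm_pos (2 * n + 2)
  have g3 := gm_pos (2 * n + 2 + 1)
  have hZ : (2 * π) ^ ((((n + 1 : ℕ) : ℝ) + 1) / 2) =
      (2 * π) ^ (((n : ℝ) + 1) / 2) * √(2 * π) := by
    rw [Real.sqrt_eq_rpow, ← Real.rpow_add (by positivity)]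
    congr 1
    push_cast
    ring
  rw [kap, KS, Kp, hZ, show n + 1 - 1 = n from rfl, show 2 * (n + 1) = 2 * n + 2 by ring,
    show 2 * n + 2 - 1 = 2 * n + 1 from rfl, show 2 * n + 3 = 2 * n + 2 + 1 from rfl]
  have h2 : 2 * (π * gm (2 * n + 4) / gm (2 * n + 1) *
      (2 ^ n * (2 * gm n * (2 * π) ^ (((n : ℝ) + 1) / 2)))) =
      gm (2 * n + 4) / gm (2 * n + 1) / gm (2 * n + 2 + 1) * 2 ^ (n + 1) * (2 * gm n) *
        (2 * π) ^ (((n : ℝ) + 1) / 2) * (π * gm (2 * n + 2 + 1)) := by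
    field_simp
    ring
  rw [h2, ← h]
  ring

theorem KN_le_KS (m : ℕ) (hm : 1 ≤ m) :
    KN (2 * m - 1) * (1 - 1 / (64 * (m : ℝ) ^ 2)) ≤ KS (2 * m - 1) := by
  have h1 := const_eq m hm
  have h2 := kap_eq_KS m hm
  have hc := cst_pos m
  have hm0 : (1 : ℝ) ≤ m := by exact_mod_cast hm
  have hb : 0 < bm m := by
    have hΓ1 : 0 < Real.Gamma (2 * m) := Real.Gamma_pos_of_pos (by positivity)
    have hΓ2 : 0 < Real.Gamma (2 * m + 1 / 2) := Real.Gamma_pos_of_pos (by positivity)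
    unfold bm
    positivity
  have h3 : bm m * KN (2 * m - 1) = cst m * KS (2 * m - 1) := by
    have hp : (0 : ℝ) < 2 ^ (2 * m - 1 + 1) := by positivity
    have h4 : (bm m * KN (2 * m - 1)) * 2 ^ (2 * m - 1 + 1) =
        (cst m * KS (2 * m - 1)) * 2 ^ (2 * m - 1 + 1) := by
      linear_combination h2 - h1
    exact mul_right_cancel₀ hp.ne' h4
  have hKS : 0 < KS (2 * m - 1) := by
    unfold KS Kp
    have q1 := gm_pos (2 * (2 * m - 1) + 4)
    have q2 := gm_pos (2 * (2 * m - 1) + 3)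
    have q3 := gm_pos (2 * (2 * m - 1 + 1))
    have q4 := gm_pos (2 * (2 * m - 1 + 1) - 1)
    have q5 := gm_pos (2 * m - 1 + 1 - 1)
    positivity
  have hKN : 0 < KN (2 * m - 1) := by
    have : 0 < bm m * KN (2 * m - 1) := by
      rw [h3]
      positivity
    exact (mul_pos_iff_of_pos_left hb).1 this
  have h5 := cst_le_bm hm
  refine le_of_mul_le_mul_left ?_ hc
  rw [← h3]
  calc cst m * (KN (2 * m - 1) * (1 - 1 / (64 * (m : ℝ) ^ 2)))
      = ((1 - 1 / (64 * (m : ℝ) ^ 2)) * cst m) * KN (2 * m - 1) := by ring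
    _ ≤ bm m * KN (2 * m - 1) := mul_le_mul_of_nonneg_right h5 hKN.le

end Pool.Agent.Helper19.PS
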